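import Mathlib
import Pool.Agent.Q64.EI.StA

/-!
Project EI (helper64), row MP_2f98db_ag: JOB AUT.
-/

set_option autoImplicit false

open Finset MvPolynomial

namespace Pool.Agent.Q121.EI

open Pool.Agent.Q64.EI

/-- translation of a transcendence basis -/
theorem transl {K : Type} [Field K] [Algebra K ℂ] {ι : Type} (x : ι → ℂ) (κ : ι → K)
    (hx : IsTranscendenceBasis K x) :
    ∃ σ : ℂ ≃+* ℂ, (∀ a : K, σ (algebraMap K ℂ a) = algebraMap K ℂ a) ∧
      ∀ i, σ (x i) = x i + algebraMap K ℂ (κ i) := by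
  -- the translation of the polynomial ring
  let τ : MvPolynomial ι K →ₐ[K] MvPolynomial ι K := aeval fun i => X i + C (κ i)
  let τ' : MvPolynomial ι K →ₐ[K] MvPolynomial ι K := aeval fun i => X i - C (κ i)
  have h1 : τ.comp τ' = AlgHom.id K _ := by
    ext i
    simp only [τ, τ', AlgHom.comp_apply, aeval_X, map_sub, AlgHom.id_apply, algHom_C,
      algebraMap_eq]
    rw [add_sub_cancel_right]
  have h2 : τ'.comp τ = AlgHom.id K _ := by
    ext i
    simp only [τ, τ', AlgHom.comp_apply, aeval_X, map_add, AlgHom.id_apply, algHom_C,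
      algebraMap_eq]
    rw [sub_add_cancel]
  let T : MvPolynomial ι K ≃ₐ[K] MvPolynomial ι K := AlgEquiv.ofAlgHom τ τ' h1 h2
  have hT : ∀ p, T p = τ p := fun p => rfl
  -- the subalgebra
  have := IsAlgClosed.isAlgClosure_of_transcendence_basis x hx
  let e : Algebra.adjoin K (Set.range x) ≃ₐ[K] Algebra.adjoin K (Set.range x) :=
    (hx.1.aevalEquiv.symm.trans T).trans hx.1.aevalEquiv
  refine ⟨IsAlgClosure.equivOfEquiv ℂ ℂ e.toRingEquiv, fun a => ?_, fun i => ?_⟩
  · have h3 := IsAlgClosure.equivOfEquiv_algebraMap ℂ ℂ e.toRingEquiv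
      (algebraMap K (Algebra.adjoin K (Set.range x)) a)
    have h4 : e.toRingEquiv (algebraMap K (Algebra.adjoin K (Set.range x)) a) =
        algebraMap K (Algebra.adjoin K (Set.range x)) a := e.commutes a
    rw [h4] at h3
    exact h3
  · have h5 : hx.1.aevalEquiv (X i) =
        (⟨x i, Algebra.subset_adjoin ⟨i, rfl⟩⟩ : Algebra.adjoin K (Set.range x)) := by
      apply Subtype.ext
      simp
    have h3 := IsAlgClosure.equivOfEquiv_algebraMap ℂ ℂ e.toRingEquiv
      (⟨x i, Algebra.subset_adjoin ⟨i, rfl⟩⟩ : Algebra.adjoin K (Set.range x))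
    have h4 : e.toRingEquiv (⟨x i, Algebra.subset_adjoin ⟨i, rfl⟩⟩ :
        Algebra.adjoin K (Set.range x)) = hx.1.aevalEquiv (X i + C (κ i)) := by
      rw [← h5]
      change hx.1.aevalEquiv (T (hx.1.aevalEquiv.symm (hx.1.aevalEquiv (X i)))) = _
      rw [AlgEquiv.symm_apply_apply, hT]
      simp only [τ, aeval_X]
    rw [h4] at h3
    have h6 : ((hx.1.aevalEquiv (X i + C (κ i)) : Algebra.adjoin K (Set.range x)) : ℂ) =
        x i + algebraMap K ℂ (κ i) := by
      simp
    have h7 : algebraMap (Algebra.adjoin K (Set.range x)) ℂ (hx.1.aevalEquiv (X i + C (κ i))) =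
        x i + algebraMap K ℂ (κ i) := h6
    rw [h7] at h3
    exact h3

theorem aut : S_aut := by
  intro n c hc
  -- the countable field
  obtain ⟨K, hK⟩ : ∃ K : Subfield ℂ, K = Subfield.closure c := ⟨_, rfl⟩
  have hcK : c ⊆ K := by rw [hK]; exact Subfield.subset_closure
  have hKc : Countable K := by
    rw [← Cardinal.mk_le_aleph0_iff, hK]
    refine (Subfield.cardinalMk_closure_le_max c).trans (max_le ?_ le_rfl)
    rw [Cardinal.mk_le_aleph0_iff]
    exact hc.to_subtype
  have hPc : Countable (MvPolynomial (Fin (n + 1)) K) := by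
    rw [← Cardinal.mk_le_aleph0_iff]
    refine MvPolynomial.cardinalMk_le_max.trans (max_le (max_le ?_ ?_) le_rfl)
    · rw [Cardinal.mk_le_aleph0_iff]
      exact hKc
    · rw [Cardinal.mk_le_aleph0_iff]
      infer_instance
  have hinj : Function.Injective (MvPolynomial.map (σ := Fin (n + 1)) (algebraMap K ℂ)) :=
    MvPolynomial.map_injective _ (algebraMap K ℂ).injective
  refine ⟨(MvPolynomial.map (algebraMap K ℂ)) '' {p : MvPolynomial (Fin (n + 1)) K | p ≠ 0},
    (Set.to_countable _).image _, ?_, ?_⟩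
  · rintro ⟨p, hp, h0⟩
    apply hp
    apply hinj
    rw [h0, map_zero]
  intro u hu
  have hu' : ∀ p : MvPolynomial (Fin (n + 1)) K, aeval u p = 0 → p = 0 := by
    intro p hp
    by_contra hne
    apply hu _ ⟨p, hne, rfl⟩
    rw [eval_map]
    exact hp
  have hind : AlgebraicIndependent K u := algebraicIndependent_iff.2 hu'
  constructor
  · intro S hS k hk
    obtain ⟨j, hj⟩ := hS
    have h1 := hu' (∑ j ∈ S, X j - C (k : K)) (by
      rw [map_sub, map_sum]
      simp only [aeval_X, hk]
      simp)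
    have h2 := congrArg (coeff (Finsupp.single j 1)) h1
    rw [coeff_sub, coeff_sum, coeff_zero] at h2
    have h3 : ∑ i ∈ S, coeff (Finsupp.single j 1) (X i : MvPolynomial (Fin (n + 1)) K) = 1 := by
      rw [Finset.sum_eq_single j]
      · rw [coeff_X, if_pos rfl]
      · intro i _ hij
        rw [coeff_X, if_neg]
        intro h
        exact hij (Finsupp.single_left_injective one_ne_zero h)
      · intro h
        exact absurd hj h
    rw [h3, coeff_C, if_neg] at h2
    · simp at h2
    · intro h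
      have := DFunLike.congr_fun h j
      simp at this
  · intro k
    have huinj : Function.Injective u := hind.injective
    obtain ⟨t, hst, ht⟩ := exists_isTranscendenceBasis_superset (R := K)
      (AlgebraicIndependent.to_subtype_range hind)
    let κ : t → K := fun b => if h : ∃ j, u j = b.1 then (k h.choose : K) else 0
    obtain ⟨σ, h1, h2⟩ := transl (fun b : t => b.1) κ ht
    refine ⟨σ, fun x hx => h1 ⟨x, hcK hx⟩, fun j => ?_⟩
    have h3 := h2 ⟨u j, hst ⟨j, rfl⟩⟩
    have h4 : κ ⟨u j, hst ⟨j, rfl⟩⟩ = (k j : K) := by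
      have hex : ∃ i, u i = (⟨u j, hst ⟨j, rfl⟩⟩ : t).1 := ⟨j, rfl⟩
      have h5 : hex.choose = j := huinj hex.choose_spec
      simp only [κ]
      rw [dif_pos hex, h5]
    rw [h4] at h3
    have h6 : algebraMap K ℂ (k j : K) = (k j : ℂ) := map_intCast _ _
    rw [h6] at h3
    exact h3

end Pool.Agent.Q121.EI
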